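import Pool.Agent.helper95.T5.SpecN
import Pool.Agent.helper65.FT.E3

set_option autoImplicit false

namespace Pool.Agent.T5

open Finset NumberField Pool.Agent.helper3.FT Pool.Agent.helper47.RA

lemma FUP_card (m₀ r : ℤ) (M P : ℕ) (hP : 1 ≤ P) :
    (((Ico m₀ (m₀ + M)).filter (fun m => (P : ℤ) ∣ m - r)).card : ℝ) ≤ (M : ℝ) / P + 1 := by
  have hP0 : (0 : ℤ) < P := by exact_mod_cast hP
  have hPR : (0 : ℝ) < P := by exact_mod_cast hP
  have h1 : (Ico m₀ (m₀ + M)).filter (fun m => (P : ℤ) ∣ m - r) =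
      {x ∈ Ico m₀ (m₀ + M) | x ≡ r [ZMOD P]} := by
    refine Finset.filter_congr fun x _ => ?_
    rw [Int.modEq_comm, Int.modEq_iff_dvd]
  rw [h1]
  have h2 := Int.Ico_filter_modEq_card m₀ (m₀ + M) hP0 r
  have h3 : ((#{x ∈ Ico m₀ (m₀ + M) | x ≡ r [ZMOD P]} : ℤ) : ℚ) ≤ (M : ℚ) / P + 1 := by
    rw [h2]
    push_cast
    have hPQ : (0 : ℚ) < P := by exact_mod_cast hP
    refine max_le ?_ (by positivity)
    have a1 := Int.ceil_lt_add_one (((m₀ : ℚ) + M - r) / P)
    have a2 := Int.le_ceil (((m₀ : ℚ) - r) / P)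
    have a3 : ((m₀ : ℚ) + M - r) / P = ((m₀ : ℚ) - r) / P + (M : ℚ) / P := by ring
    rw [a3] at a1
    push_cast at a1 a2 ⊢
    rw [a3]
    linarith
  have h4 := (Rat.cast_le (K := ℝ)).2 h3
  push_cast at h4
  exact h4

theorem FUP : FUP_stmt := by
  classical
  intro m₀ g₀ z₀ M G V P q H r r' α β γ c₀ hV hP hq hH hbig
  have hqR : (0 : ℝ) < q := by exact_mod_cast hq
  have hqZ : (0 : ℤ) < q := by exact_mod_cast hq
  have hH0 : (0 : ℝ) < H := by exact_mod_cast hH
  have hbigR : 4 * (H : ℝ) * V ≤ q := by exact_mod_cast hbig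
  have hVq : (V : ℤ) ≤ q := by
    have h1 : V ≤ q := by
      have : V * 1 ≤ V * (4 * H) := Nat.mul_le_mul_left _ (by omega)
      nlinarith
    exact_mod_cast h1
  set x : ℤ × ℤ → ℝ := fun p =>
    (α * p.1 ^ 2 + β * p.1 * p.2 + γ * p.2 ^ 2 + c₀ - z₀ - V / 2) / (q : ℝ) with hx
  set s := ((Ico m₀ (m₀ + M)).filter (fun m => (P : ℤ) ∣ m - r)) ×ˢ
    ((Ico g₀ (g₀ + G)).filter (fun g => (P : ℤ) ∣ g - r')) with hs
  have hF := fejer s x H hH
  have hcard : (s.card : ℝ) ≤ ((M : ℝ) / P + 1) * ((G : ℝ) / P + 1) := by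
    rw [hs, Finset.card_product]
    push_cast
    exact mul_le_mul (FUP_card m₀ r M P hP) (FUP_card g₀ r' G P hP) (by positivity) (by positivity)
  have hES : ∀ h ∈ Ico 1 H, ‖∑ i ∈ s, e (h * x i)‖
      = ‖ESg m₀ g₀ M G P r r' (h * α / q) (h * β / q) (h * γ / q) 0 0‖ := by
    intro h _
    have h1 : ∑ i ∈ s, e (h * x i) = e (h * ((c₀ - z₀ - V / 2) / q)) *
        ESg m₀ g₀ M G P r r' (h * α / q) (h * β / q) (h * γ / q) 0 0 := by
      unfold ESg
      rw [hs, Finset.sum_product, Finset.mul_sum]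
      refine Finset.sum_congr rfl fun m _ => ?_
      rw [Finset.mul_sum]
      refine Finset.sum_congr rfl fun g _ => ?_
      unfold e
      rw [← Complex.exp_add]
      congr 1
      simp only [hx]
      push_cast
      ring
    rw [h1, norm_mul]
    have h2 : ‖e (h * ((c₀ - z₀ - V / 2) / q))‖ = 1 := by
      unfold e
      rw [show (2 * Real.pi * Complex.I * ((h * ((c₀ - z₀ - V / 2) / q) : ℝ) : ℂ) : ℂ) =
        ((2 * Real.pi * (h * ((c₀ - z₀ - V / 2) / q)) : ℝ) : ℂ) * Complex.I by push_cast; ring]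
      exact Complex.norm_exp_ofReal_mul_I _
    rw [h2, one_mul]
  rw [Finset.sum_congr rfl hES] at hF
  have hF2 : ((s.filter (fun i => nd (x i) * (8 * H) ≤ 1)).card : ℝ) ≤
      2 / H * (((M : ℝ) / P + 1) * ((G : ℝ) / P + 1) +
      2 * ∑ h ∈ Ico 1 H, ‖ESg m₀ g₀ M G P r r' (h * α / q) (h * β / q) (h * γ / q) 0 0‖) := by
    refine hF.trans (mul_le_mul_of_nonneg_left ?_ (by positivity))
    linarith
  refine le_trans ?_ hF2
  have hle : (fibG m₀ g₀ z₀ M G V P q r r' α β γ c₀).card ≤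
      (s.filter (fun i => nd (x i) * (8 * H) ≤ 1)).card := by
    refine Finset.card_le_card_of_injOn (fun t => (t.1, t.2.1)) ?_ ?_
    · intro t ht
      simp only [fibG, Finset.coe_filter, Finset.mem_product, Set.mem_ofPred_eq,
        Finset.mem_filter, Finset.mem_Ico] at ht
      simp only [hs, Finset.coe_filter, Finset.mem_product, Set.mem_ofPred_eq, Finset.mem_filter,
        Finset.mem_Ico]
      obtain ⟨⟨h1, h2, h3⟩, h4⟩ := ht
      refine ⟨⟨h1, h2⟩, ?_⟩
      obtain ⟨w, hw⟩ := h4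
      have hwR : (t.2.2 : ℝ) - (α * t.1 ^ 2 + β * t.1 * t.2.1 + γ * t.2.1 ^ 2 + c₀) = q * w := by
        exact_mod_cast hw
      have hxe : x (t.1, t.2.1) = (t.2.2 - z₀ - V / 2) / q - w := by
        simp only [hx]
        field_simp
        linarith
      have hz1 : (z₀ : ℝ) ≤ t.2.2 := by exact_mod_cast h3.1
      have hz2 : (t.2.2 : ℝ) < z₀ + V := by exact_mod_cast h3.2
      have hnd : nd (x (t.1, t.2.1)) ≤ V / 2 / q := by
        unfold nd
        refine (round_le (x (t.1, t.2.1)) (-w)).trans ?_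
        rw [hxe]
        push_cast
        rw [show ((t.2.2 : ℝ) - z₀ - V / 2) / q - w - -(w : ℝ) = (t.2.2 - z₀ - V / 2) / q by ring,
          abs_div, abs_of_pos hqR]
        refine div_le_div_of_nonneg_right ?_ hqR.le
        rw [abs_le]
        constructor <;> linarith
      calc nd (x (t.1, t.2.1)) * (8 * H) ≤ V / 2 / q * (8 * H) := by gcongr
        _ = 4 * H * V / q := by ring
        _ ≤ 1 := by rw [div_le_one hqR]; exact hbigR
    · intro t ht t' ht' he
      simp only [fibG, Finset.coe_filter, Finset.mem_product, Set.mem_ofPred_eq,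
        Finset.mem_filter, Finset.mem_Ico] at ht ht'
      simp only [Prod.mk.injEq] at he
      obtain ⟨h1, h2⟩ := he
      obtain ⟨⟨-, -, h3⟩, d1⟩ := ht
      obtain ⟨⟨-, -, h3'⟩, d2⟩ := ht'
      rw [h1, h2] at d1
      have d3 := dvd_sub d1 d2
      have e1 : t.2.2 - (α * t'.1 ^ 2 + β * t'.1 * t'.2.1 + γ * t'.2.1 ^ 2 + c₀) -
          (t'.2.2 - (α * t'.1 ^ 2 + β * t'.1 * t'.2.1 + γ * t'.2.1 ^ 2 + c₀)) = t.2.2 - t'.2.2 := by
        ring
      rw [e1] at d3
      have h5 : t.2.2 - t'.2.2 = 0 := by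
        refine Int.eq_zero_of_abs_lt_dvd d3 ?_
        rw [abs_lt]
        constructor <;> linarith [h3.1, h3.2, h3'.1, h3'.2]
      exact Prod.ext h1 (Prod.ext h2 (by linarith))
  exact_mod_cast hle

end Pool.Agent.T5
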