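import Pool.Agent.helper26.T5.SpecB

set_option autoImplicit false

namespace Pool.Agent.helper26.T5

open NumberField Pool.Agent.helper3.FT Pool.Agent.helper47.RA Pool.Agent.T5

theorem L2_scal1 {R Wd h ρ κ : ℝ} (hR : 0 ≤ R) (hρ0 : 0 ≤ ρ) (hρ : ρ ≤ 1) (hκ : 0 ≤ κ) (hWd : 0 ≤ Wd)
    (h1 : Wd ≤ ρ * R) (hh : h = κ * R) : 4 * (R + Wd) * (h + Wd) ≤ 8 * (κ + ρ) * R ^ 2 := by
  subst hh
  have a1 : R + Wd ≤ (1 + ρ) * R := by linarith
  have a2 : κ * R + Wd ≤ (κ + ρ) * R := by linarith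
  have a3 : 0 ≤ κ * R + Wd := by positivity
  have a4 : (R + Wd) * (κ * R + Wd) ≤ (1 + ρ) * R * ((κ + ρ) * R) :=
    mul_le_mul a1 a2 a3 (by positivity)
  have a5 : (1 + ρ) * R * ((κ + ρ) * R) ≤ 2 * ((κ + ρ) * R ^ 2) := by
    have : (1 + ρ) * R * ((κ + ρ) * R) = (1 + ρ) * ((κ + ρ) * R ^ 2) := by ring
    rw [this]
    exact mul_le_mul_of_nonneg_right (by linarith) (by positivity)
  nlinarith

theorem L2_scal2 {R Wd r ρ κ : ℝ} (hR : 0 ≤ R) (hρ0 : 0 ≤ ρ) (hρ : ρ ≤ 1) (hκ : 0 ≤ κ) (hWd : 0 ≤ Wd)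
    (h1 : Wd ≤ ρ * R) (hr : r = √κ * R) : 4 * (r + Wd) * (r + Wd) ≤ 8 * (κ + ρ) * R ^ 2 := by
  subst hr
  have hk := Real.sqrt_nonneg κ
  have hk2 : √κ ^ 2 = κ := Real.sq_sqrt hκ
  have a1 : √κ * R + Wd ≤ (√κ + ρ) * R := by linarith
  have a2 : 0 ≤ √κ * R + Wd := by positivity
  have a3 : (√κ * R + Wd) ^ 2 ≤ ((√κ + ρ) * R) ^ 2 := pow_le_pow_left₀ a2 a1 2
  have a4 : ((√κ + ρ) * R) ^ 2 ≤ 2 * ((κ + ρ) * R ^ 2) := by
    have e1 : ((√κ + ρ) * R) ^ 2 = (√κ + ρ) ^ 2 * R ^ 2 := by ring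
    have e2 : (√κ + ρ) ^ 2 ≤ 2 * (κ + ρ) := by
      nlinarith [sq_nonneg (√κ - ρ)]
    rw [e1]
    have := mul_le_mul_of_nonneg_right e2 (sq_nonneg R)
    linarith
  nlinarith

theorem l2 (hLEMB : LEMB) (hLBB : LBB) (hLLOC : LLOC) (hLCRT : LCRT) (hLPS : LPS) (hLRS : LRS) :
    L2 := by
  classical
  intro K _ _ Q a θ w ℓ T ρ κ hD hPa ha hℓ hT hNE hθ hρdef hρ1 hκ0 hκ1 S hS
  obtain ⟨E, hE1, hE2, hE3, hE4, hE5⟩ := hLEMB K Q hD
  obtain ⟨e₁, e₂, hRB⟩ := hLBB K Q (a ^ 2) hD (pow_ne_zero 2 ha)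
  have hZ0 : Ideal.absNorm a ≠ 0 := by
    rw [Ne, Ideal.absNorm_eq_zero_iff]
    exact ha
  set Z : ℝ := (Ideal.absNorm a : ℝ) with hZ
  have hZpos : 0 < Z := by
    rw [hZ]
    exact_mod_cast Nat.pos_of_ne_zero hZ0
  set s : ℝ := √|(Q.D : ℝ)| with hs
  have hs0 : 0 < s := by
    rw [hs]
    apply Real.sqrt_pos.2
    rw [abs_pos]
    exact_mod_cast hD.ne
  have hNsq : (Ideal.absNorm (a ^ 2) : ℝ) = Z ^ 2 := by
    rw [map_pow]
    push_cast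
    rfl
  have hW1 : 1 ≤ WW w := by
    unfold WW
    refine Nat.one_le_iff_ne_zero.2 (Finset.prod_ne_zero_iff.2 fun p hp => ?_)
    exact (Finset.mem_filter.1 hp).2.ne_zero
  set W : ℝ := (WW w : ℝ) with hW
  have hW0 : 0 < W := by
    rw [hW]
    exact_mod_cast hW1
  set R : ℝ := Z * √T with hR
  have hR0 : 0 ≤ R := by positivity
  have hR2 : R ^ 2 = Z ^ 2 * T := by
    rw [hR, mul_pow, Real.sq_sqrt hT.le]
  have hρ0 : 0 ≤ ρ := by
    rw [hρdef]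
    positivity
  -- the covolume
  have hcov : cov (E e₁) (E e₂) = Z ^ 2 * s / 2 := by
    unfold cov
    rw [← hE3, ← map_mul, hE2, abs_mul]
    have h1 : |(Q.Y (Q.cj e₁ * e₂) : ℝ)| = Z ^ 2 := by
      have h2 := hRB.det
      have h3 : ((|Q.Y (Q.cj e₁ * e₂)| : ℤ) : ℝ) = ((Ideal.absNorm (a ^ 2) : ℤ) : ℝ) := by
        rw [h2]
      rw [Int.cast_abs, Int.cast_natCast, hNsq] at h3
      exact h3
    rw [h1, abs_of_nonneg (by positivity)]
    ring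
  have hV0 : 0 < cov (E e₁) (E e₂) := by
    rw [hcov]
    positivity
  -- the diameter
  set d : ℝ := ‖E e₁‖ + ‖E e₂‖ with hd
  have hd0 : 0 ≤ d := by positivity
  have hv1 : Z * √ℓ ≤ Q.v₁ e₁ := by
    have h1 := hNE e₁ hRB.m1 hRB.ne
    have h2 : (Z * √ℓ) ^ 2 ≤ Q.v₁ e₁ ^ 2 := by
      rw [mul_pow, Real.sq_sqrt hℓ.le]
      exact h1.le
    exact (abs_le_of_sq_le_sq' h2 (Q.v₁_nonneg e₁)).2
  have hsl : 0 < √ℓ := Real.sqrt_pos.2 hℓ
  have hsT : 0 < √T := Real.sqrt_pos.2 hT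
  have hv2 : Q.v₁ e₂ ≤ s * Z / √ℓ := by
    have h1 := hRB.red
    rw [hNsq] at h1
    have h2 : Z * √ℓ * Q.v₁ e₂ ≤ s * Z ^ 2 :=
      (mul_le_mul_of_nonneg_right hv1 (Q.v₁_nonneg e₂)).trans h1
    rw [le_div_iff₀ hsl]
    have h3 : Z * (Q.v₁ e₂ * √ℓ) ≤ Z * (s * Z) := by linarith
    exact le_of_mul_le_mul_left h3 hZpos
  have hWd : W * d ≤ ρ * R := by
    have h1 : d ≤ 2 * (s * Z / √ℓ) := by
      rw [hd, hE1, hE1]
      have := hRB.le
      linarith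
    have h2 : ρ * R = W * (2 * (s * Z / √ℓ)) := by
      rw [hρdef, hR, Real.sqrt_mul hℓ.le]
      field_simp
    rw [h2]
    exact mul_le_mul_of_nonneg_left h1 hW0.le
  have hWd0 : 0 ≤ W * d := by positivity
  -- the periodic function
  set F : ℤ → ℤ → ℝ := fun x y => ∏ p ∈ pr w, (if alw Q p a (x * e₁ + y * e₂ : 𝓞 K) then
    (if p ∣ Ideal.absNorm a ∧ ¬ (p : ℤ) ∣ Q.D then ((p : ℝ) / (p - 1)) ^ 2 else (p : ℝ) / (p - 1))
    else 0) with hF
  have hPer : Per (WW w) F := by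
    refine hLCRT (pr w) (fun p x y => if alw Q p a (x * e₁ + y * e₂ : 𝓞 K) then
      (if p ∣ Ideal.absNorm a ∧ ¬ (p : ℤ) ∣ Q.D then ((p : ℝ) / (p - 1)) ^ 2 else (p : ℝ) / (p - 1))
      else 0) (fun p hp => (Finset.mem_filter.1 hp).2) (fun p hp => ?_)
    exact hLLOC K Q a e₁ e₂ hD hPa ha hRB p (Finset.mem_filter.1 hp).2
  have hwt : ∀ x y : ℤ, wt Q w a (x * e₁ + y * e₂ : 𝓞 K) = F x y := fun x y => rfl
  -- a section
  have hsec : ∀ α : 𝓞 K, ∃ p : ℤ × ℤ, α ∈ a ^ 2 → α = p.1 * e₁ + p.2 * e₂ := by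
    intro α
    by_cases h : α ∈ a ^ 2
    · obtain ⟨x, y, hxy⟩ := hRB.sp α h
      exact ⟨(x, y), fun _ => hxy⟩
    · exact ⟨(0, 0), fun h' => absurd h' h⟩
  choose φ hφ using hsec
  have hEφ : ∀ α, α ∈ a ^ 2 → E α = lp 0 (E e₁) (E e₂) (φ α) := by
    intro α hα
    conv_lhs => rw [hφ α hα]
    unfold lp
    rw [map_add, map_mul, map_mul, map_intCast, map_intCast]
    ring
  have hSa : ∀ α ∈ S, α ∈ a ^ 2 := fun α hα => (hS α hα).1.1
  have hwtα : ∀ α ∈ S, wt Q w a α = F (φ α).1 (φ α).2 := by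
    intro α hα
    conv_lhs => rw [hφ α (hSa α hα)]
    exact hwt _ _
  have hwt0 : ∀ α ∈ S, 0 ≤ wt Q w a α := by
    intro α hα
    rw [hwtα α hα]
    exact hPer.nn _ _
  -- the general bound
  have hgen : ∀ (S' : Finset (𝓞 K)) (u : ℂ) (r h : ℝ), S' ⊆ S → ‖u‖ = 1 → 0 ≤ r → 0 ≤ h →
      (∀ α ∈ S', ‖E α‖ ≤ r ∧ |((starRingEnd ℂ) u * E α).im| ≤ h) →
      cov (E e₁) (E e₂) * ∑ α ∈ S', wt Q w a α ≤ 4 * (r + W * d) * (h + W * d) := by
    intro S' u r h hsub hu hr hh hS'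
    have hinj : Set.InjOn φ (S' : Set (𝓞 K)) := by
      intro x hx y hy hxy
      rw [hφ x (hSa x (hsub hx)), hφ y (hSa y (hsub hy)), hxy]
    have h1 : ∑ α ∈ S', wt Q w a α = ∑ p ∈ S'.image φ, F p.1 p.2 := by
      rw [Finset.sum_image hinj]
      exact Finset.sum_congr rfl fun α hα => hwtα α (hsub hα)
    rw [h1]
    refine hLPS (WW w) F (E e₁) (E e₂) u d r h hW1 hPer hV0 le_rfl hr hh hu (S'.image φ) ?_
    intro p hp
    obtain ⟨α, hα, rfl⟩ := Finset.mem_image.1 hp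
    rw [← hEφ α (hSa α (hsub hα))]
    exact hS' α hα
  -- norms
  have hnorm : ∀ α ∈ S, ‖E α‖ ≤ R := by
    intro α hα
    rw [hE1]
    have h1 := (hS α hα).1.2.2
    have h2 : Q.v₁ α ^ 2 ≤ R ^ 2 := by
      rw [hR2]
      exact h1
    exact (abs_le_of_sq_le_sq' h2 hR0).2
  -- the square root of the direction of θ
  have hEθ : E θ ≠ 0 := by
    intro h
    apply hθ
    have h1 := hE4 θ
    rw [← hE1, h, norm_zero] at h1
    have h2 : nn θ = 0 := by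
      have : (nn θ : ℝ) = 0 := by rw [h1]; norm_num
      exact_mod_cast this
    unfold nn at h2
    rw [Ideal.absNorm_eq_zero_iff] at h2
    rwa [Ideal.span_singleton_eq_bot] at h2
  have hnθ : 0 < ‖E θ‖ := norm_pos_iff.2 hEθ
  obtain ⟨u, hu2⟩ := IsAlgClosed.exists_pow_nat_eq (E θ / (‖E θ‖ : ℂ)) (n := 2) (by norm_num)
  have hu1 : ‖u‖ = 1 := by
    have h1 : ‖u‖ ^ 2 = 1 := by
      rw [← norm_pow, hu2, norm_div, Complex.norm_real, norm_norm, div_self hnθ.ne']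
    have h2 : 0 ≤ ‖u‖ := norm_nonneg u
    nlinarith
  have huI : ‖u * Complex.I‖ = 1 := by rw [norm_mul, hu1, Complex.norm_I, one_mul]
  -- the four parts
  set Sa := S.filter fun α => ‖E α‖ ≤ √κ * R with hSadef
  set Sb := S.filter fun α => |((starRingEnd ℂ) 1 * E α).im| ≤ κ * R with hSbdef
  set Sc := S.filter fun α => |((starRingEnd ℂ) u * E α).im| ≤ κ * R with hScdef
  set Sd := S.filter fun α => |((starRingEnd ℂ) (u * Complex.I) * E α).im| ≤ κ * R with hSddef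
  have hcover : S ⊆ (Sa ∪ Sb) ∪ (Sc ∪ Sd) := by
    intro α hα
    have hn := hnorm α hα
    obtain ⟨hAL, hbad⟩ := hS α hα
    simp only [hSadef, hSbdef, hScdef, hSddef, Finset.mem_union, Finset.mem_filter]
    rcases hbad with h | h | ⟨γ, hγ1, hγ2⟩
    · left; left
      refine ⟨hα, ?_⟩
      rw [hE1]
      have h2 : Q.v₁ α ^ 2 ≤ (√κ * R) ^ 2 := by
        rw [mul_pow, Real.sq_sqrt hκ0.le, hR2]
        exact h
      exact (abs_le_of_sq_le_sq' h2 (by positivity)).2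
    · left; right
      refine ⟨hα, ?_⟩
      rw [map_one, one_mul, hE2, abs_of_nonneg]
      · have h1 : κ * ‖E α‖ ≤ κ * R := mul_le_mul_of_nonneg_left hn hκ0.le
        rw [hE1] at h1
        linarith
      · have : (0 : ℝ) < Q.Y α := by exact_mod_cast hAL.2.1
        positivity
    · right
      have hEγ : E γ * E θ = (Z : ℂ) * E α ^ 2 := by
        rw [← map_mul, hγ1, map_mul, map_pow, map_natCast]
        rw [hZ]
        push_cast
        rfl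
      have him : |(E γ).im| ≤ κ * ‖E γ‖ := by
        rw [hE2, abs_mul, abs_of_nonneg (show (0 : ℝ) ≤ √|(Q.D : ℝ)| / 2 by positivity), hE1]
        linarith
      have hkey : (starRingEnd ℂ) (u ^ 2) * E α ^ 2 = ((‖E θ‖ / Z : ℝ) : ℂ) * E γ := by
        rw [hu2, map_div₀, Complex.conj_ofReal]
        have hz : (Z : ℂ) ≠ 0 := by exact_mod_cast hZpos.ne'
        have hn' : (‖E θ‖ : ℂ) ≠ 0 := by exact_mod_cast hnθ.ne'
        have h3 : (starRingEnd ℂ) (E θ) * E θ = (‖E θ‖ : ℂ) ^ 2 := Complex.conj_mul' (E θ)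
        push_cast
        field_simp
        linear_combination (-(starRingEnd ℂ) (E θ)) * hEγ + E γ * h3
      have hn2 : ‖E γ‖ * ‖E θ‖ = Z * ‖E α‖ ^ 2 := by
        rw [← norm_mul, hEγ, norm_mul, norm_pow, Complex.norm_real, Real.norm_eq_abs,
          abs_of_pos hZpos]
      have hb : |((starRingEnd ℂ) (u ^ 2) * E α ^ 2).im| ≤ κ * ‖E α‖ ^ 2 := by
        rw [hkey, Complex.im_ofReal_mul, abs_mul,
          abs_of_nonneg (show (0 : ℝ) ≤ ‖E θ‖ / Z by positivity)]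
        have h4 : ‖E θ‖ / Z * |(E γ).im| ≤ ‖E θ‖ / Z * (κ * ‖E γ‖) :=
          mul_le_mul_of_nonneg_left him (by positivity)
        refine h4.trans (le_of_eq ?_)
        have h5 : ‖E θ‖ / Z * (κ * ‖E γ‖) = κ * (‖E γ‖ * ‖E θ‖) / Z := by ring
        rw [h5, hn2]
        field_simp
      rcases hLRS u (E α) κ hu1 hκ0.le hb with h | h
      · left
        exact ⟨hα, h.trans (mul_le_mul_of_nonneg_left hn hκ0.le)⟩
      · right
        exact ⟨hα, h.trans (mul_le_mul_of_nonneg_left hn hκ0.le)⟩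
  have hκR : 0 ≤ κ * R := by positivity
  have hB : ∀ (S' : Finset (𝓞 K)) (u : ℂ), S' ⊆ S → ‖u‖ = 1 →
      (∀ α ∈ S', |((starRingEnd ℂ) u * E α).im| ≤ κ * R) →
      cov (E e₁) (E e₂) * ∑ α ∈ S', wt Q w a α ≤ 8 * (κ + ρ) * R ^ 2 := by
    intro S' u hsub hu h
    refine (hgen S' u R (κ * R) hsub hu hR0 hκR fun α hα => ⟨hnorm α (hsub hα), h α hα⟩).trans ?_
    exact L2_scal1 hR0 hρ0 hρ1 hκ0.le hWd0 hWd rfl
  have b2 := hB Sb 1 (Finset.filter_subset _ _) (by simp) fun α hα => (Finset.mem_filter.1 hα).2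
  have b3 := hB Sc u (Finset.filter_subset _ _) hu1 fun α hα => (Finset.mem_filter.1 hα).2
  have b4 := hB Sd (u * Complex.I) (Finset.filter_subset _ _) huI
    fun α hα => (Finset.mem_filter.1 hα).2
  have b1 : cov (E e₁) (E e₂) * ∑ α ∈ Sa, wt Q w a α ≤ 8 * (κ + ρ) * R ^ 2 := by
    have hr0 : 0 ≤ √κ * R := by positivity
    refine (hgen Sa 1 (√κ * R) (√κ * R) (Finset.filter_subset _ _) (by simp) hr0 hr0 ?_).trans ?_
    · intro α hα
      have h1 := (Finset.mem_filter.1 hα).2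
      refine ⟨h1, ?_⟩
      rw [map_one, one_mul]
      exact (Complex.abs_im_le_norm _).trans h1
    · exact L2_scal2 hR0 hρ0 hρ1 hκ0.le hWd0 hWd rfl
  have hun : ∀ A B : Finset (𝓞 K), A ⊆ S → B ⊆ S → ∑ α ∈ A ∪ B, wt Q w a α ≤
      ∑ α ∈ A, wt Q w a α + ∑ α ∈ B, wt Q w a α := by
    intro A B hA _
    have h1 := Finset.sum_union_inter (s₁ := A) (s₂ := B) (f := fun α => wt Q w a α)
    have h2 : 0 ≤ ∑ α ∈ A ∩ B, wt Q w a α :=
      Finset.sum_nonneg fun α hα => hwt0 α (hA (Finset.mem_inter.1 hα).1)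
    linarith
  have hsa : Sa ⊆ S := Finset.filter_subset _ _
  have hsb : Sb ⊆ S := Finset.filter_subset _ _
  have hsc : Sc ⊆ S := Finset.filter_subset _ _
  have hsd : Sd ⊆ S := Finset.filter_subset _ _
  have c1 := hun Sa Sb hsa hsb
  have c2 := hun Sc Sd hsc hsd
  have c3 := hun (Sa ∪ Sb) (Sc ∪ Sd) (Finset.union_subset hsa hsb) (Finset.union_subset hsc hsd)
  have c4 : ∑ α ∈ S, wt Q w a α ≤ ∑ α ∈ (Sa ∪ Sb) ∪ (Sc ∪ Sd), wt Q w a α := by
    refine Finset.sum_le_sum_of_subset_of_nonneg hcover fun α hα _ => hwt0 α ?_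
    exact Finset.union_subset (Finset.union_subset hsa hsb) (Finset.union_subset hsc hsd) hα
  set tot := ∑ α ∈ S, wt Q w a α with htot
  have htot : tot ≤ ∑ α ∈ Sa, wt Q w a α + ∑ α ∈ Sb, wt Q w a α +
      (∑ α ∈ Sc, wt Q w a α + ∑ α ∈ Sd, wt Q w a α) := by linarith
  have hVtot : cov (E e₁) (E e₂) * tot ≤ 32 * (κ + ρ) * R ^ 2 := by
    have := mul_le_mul_of_nonneg_left htot hV0.le
    linarith
  rw [hcov, hR2] at hVtot
  have hfin : tot * s ≤ 64 * (κ + ρ) * T := by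
    have h1 : Z ^ 2 * (tot * s) ≤ Z ^ 2 * (64 * (κ + ρ) * T) := by linarith
    exact le_of_mul_le_mul_left h1 (by positivity)
  have h2 : tot ≤ 64 * (κ + ρ) * T / s := by
    rw [le_div_iff₀ hs0]
    exact hfin
  refine h2.trans ?_
  have h3 : 64 * (κ + ρ) * T / s = 64 * ((κ + ρ) * (T / s)) := by ring
  have h4 : 100 * (κ + ρ) * (T / s) = 100 * ((κ + ρ) * (T / s)) := by ring
  rw [h3, h4]
  have h5 : 0 ≤ (κ + ρ) * (T / s) := by positivity
  linarith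

end Pool.Agent.helper26.T5
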