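import Pool.Agent.helper94.T5.SpecP

set_option autoImplicit false

namespace Pool.Agent.T5P

open Finset

section ring
variable {A : Type} [CommRing A]

theorem PK_z (n k a b' : A) :
    (a * n - a ^ 2 * k * b') ^ 2 + k * (2 * a ^ 3 * n * b' - a ^ 4 * k * b' ^ 2) = n ^ 2 * a ^ 2 := by
  ring

theorem PK_l (n k a a' b b' : A) (ha : a * a' = 1) (hb : b * b' = 1) :
    n ^ 2 * (a * n - a ^ 2 * k * b') * (b * k + b ^ 2 * n * a') + n ^ 2 * a ^ 2 * k ^ 2 =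
      n ^ 4 * b ^ 2 := by
  linear_combination (n ^ 4 * b ^ 2 - n ^ 3 * a * k * b ^ 2 * b') * ha +
    (-n ^ 2 * a ^ 2 * k ^ 2 - n ^ 3 * a * k * b) * hb

theorem PK_s (n k a a' b b' : A) (ha : a * a' = 1) (hb : b * b' = 1) :
    n ^ 2 * (b * k + b ^ 2 * n * a') * (2 * a ^ 3 * n * b' - a ^ 4 * k * b' ^ 2) -
      (a * n - a ^ 2 * k * b') * k * (n ^ 2 * a ^ 2) = 2 * n ^ 4 * a ^ 2 * b := by
  linear_combination (2 * n ^ 4 * a ^ 2 * b ^ 2 * b' - n ^ 3 * a ^ 3 * k * b ^ 2 * b' ^ 2) * ha +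
    (2 * n ^ 3 * a ^ 3 * k - n ^ 2 * a ^ 4 * k ^ 2 * b' + 2 * n ^ 4 * a ^ 2 * b -
      n ^ 3 * a ^ 3 * k * (b * b' + 1)) * hb

end ring

/-- the map from pairs of units -/
def PK_f {p : ℕ} (n k : ZMod (p ^ 2)) (v : (ZMod (p ^ 2))ˣ × (ZMod (p ^ 2))ˣ) :
    ZMod (p ^ 2) × ZMod (p ^ 2) × ZMod (p ^ 2) :=
  ((v.1 : ZMod (p ^ 2)) * n - (v.1 : ZMod (p ^ 2)) ^ 2 * k * ((v.2⁻¹ : (ZMod (p ^ 2))ˣ) : ZMod (p ^ 2)),
    (v.2 : ZMod (p ^ 2)) * k + (v.2 : ZMod (p ^ 2)) ^ 2 * n * ((v.1⁻¹ : (ZMod (p ^ 2))ˣ) : ZMod (p ^ 2)),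
    2 * (v.1 : ZMod (p ^ 2)) ^ 3 * n * ((v.2⁻¹ : (ZMod (p ^ 2))ˣ) : ZMod (p ^ 2)) -
      (v.1 : ZMod (p ^ 2)) ^ 4 * k * ((v.2⁻¹ : (ZMod (p ^ 2))ˣ) : ZMod (p ^ 2)) ^ 2)

theorem PK_fz {p : ℕ} (n k : ZMod (p ^ 2)) (v : (ZMod (p ^ 2))ˣ × (ZMod (p ^ 2))ˣ) :
    zz p k (PK_f n k v).1 (PK_f n k v).2.2 = n ^ 2 * (v.1 : ZMod (p ^ 2)) ^ 2 := by
  unfold zz PK_f
  exact PK_z n k _ _

theorem PK_fl {p : ℕ} (n k : ZMod (p ^ 2)) (v : (ZMod (p ^ 2))ˣ × (ZMod (p ^ 2))ˣ) :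
    ll p n k (PK_f n k v).1 (PK_f n k v).2.1 (PK_f n k v).2.2 =
      n ^ 4 * (v.2 : ZMod (p ^ 2)) ^ 2 := by
  have h1 : ll p n k (PK_f n k v).1 (PK_f n k v).2.1 (PK_f n k v).2.2 =
      n ^ 2 * (PK_f n k v).1 * (PK_f n k v).2.1 +
        zz p k (PK_f n k v).1 (PK_f n k v).2.2 * k ^ 2 := rfl
  rw [h1, PK_fz]
  have := PK_l n k (v.1 : ZMod (p ^ 2)) ((v.1⁻¹ : (ZMod (p ^ 2))ˣ) : ZMod (p ^ 2))
    (v.2 : ZMod (p ^ 2)) ((v.2⁻¹ : (ZMod (p ^ 2))ˣ) : ZMod (p ^ 2)) (Units.mul_inv _) (Units.mul_inv _)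
  rw [← this]
  rfl

theorem PK_fs {p : ℕ} (n k : ZMod (p ^ 2)) (v : (ZMod (p ^ 2))ˣ × (ZMod (p ^ 2))ˣ) :
    ss p n k (PK_f n k v).1 (PK_f n k v).2.1 (PK_f n k v).2.2 =
      2 * n ^ 4 * (v.1 : ZMod (p ^ 2)) ^ 2 * (v.2 : ZMod (p ^ 2)) := by
  have h1 : ss p n k (PK_f n k v).1 (PK_f n k v).2.1 (PK_f n k v).2.2 =
      n ^ 2 * (PK_f n k v).2.1 * (PK_f n k v).2.2 -
        (PK_f n k v).1 * k * zz p k (PK_f n k v).1 (PK_f n k v).2.2 := rfl
  rw [h1, PK_fz]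
  have := PK_s n k (v.1 : ZMod (p ^ 2)) ((v.1⁻¹ : (ZMod (p ^ 2))ˣ) : ZMod (p ^ 2))
    (v.2 : ZMod (p ^ 2)) ((v.2⁻¹ : (ZMod (p ^ 2))ˣ) : ZMod (p ^ 2)) (Units.mul_inv _) (Units.mul_inv _)
  rw [← this]
  rfl

theorem PK (hPD : PD_stmt) (hPKR : PKR_stmt) : PK_stmt := by
  intro p _ hp2 n k hn
  have hp : p.Prime := Fact.out
  obtain ⟨-, -, -, hunit, -, -, -⟩ := hPD p
  have hN : IsUnit n := (hunit n).2 hn
  have h2 : IsUnit (2 : ZMod (p ^ 2)) := by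
    have h3 : IsUnit ((2 : ℕ) : ZMod (p ^ 2)) := by
      rw [ZMod.isUnit_iff_coprime]
      exact Nat.Coprime.pow_right 2 ((Nat.coprime_primes Nat.prime_two hp).2 (Ne.symm hp2))
    exact_mod_cast h3
  have hnf : ∀ z l s : ZMod (p ^ 2), nf p z l s ↔ s ^ 2 = 4 * z ^ 2 * l := by
    intro z l s
    unfold nf
    rw [if_neg hp2]
  set S := {v : ZMod (p ^ 2) × ZMod (p ^ 2) × ZMod (p ^ 2) //
    ¬ dv p (zz p k v.1 v.2.2) ∧ ¬ dv p (ll p n k v.1 v.2.1 v.2.2) ∧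
      nf p (zz p k v.1 v.2.2) (ll p n k v.1 v.2.1 v.2.2) (ss p n k v.1 v.2.1 v.2.2)} with hS
  let F : (ZMod (p ^ 2))ˣ × (ZMod (p ^ 2))ˣ → S := fun v => ⟨PK_f n k v, by
    rw [PK_fz, PK_fl, PK_fs, hnf]
    refine ⟨(hunit _).1 ((hN.pow 2).mul (v.1.isUnit.pow 2)),
      (hunit _).1 ((hN.pow 4).mul (v.2.isUnit.pow 2)), by ring⟩⟩
  have hbij : Function.Bijective F := by
    constructor
    · rintro ⟨a, b⟩ ⟨c, e⟩ h
      have h0 : PK_f n k (a, b) = PK_f n k (c, e) := congrArg Subtype.val h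
      have hz := PK_fz n k (a, b)
      have hs := PK_fs n k (a, b)
      rw [h0, PK_fz] at hz
      rw [h0, PK_fs] at hs
      simp only at hz hs
      -- a² = c²
      have ha2 : (c : ZMod (p ^ 2)) ^ 2 = (a : ZMod (p ^ 2)) ^ 2 := (hN.pow 2).mul_left_cancel hz
      have hb : (e : ZMod (p ^ 2)) = b := by
        rw [ha2] at hs
        have hu : IsUnit (2 * n ^ 4 * (a : ZMod (p ^ 2)) ^ 2) :=
          (h2.mul (hN.pow 4)).mul (a.isUnit.pow 2)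
        exact hu.mul_left_cancel hs
      have hb' : e = b := Units.ext hb
      have h1 : (a : ZMod (p ^ 2)) * n - (a : ZMod (p ^ 2)) ^ 2 * k * ((b⁻¹ : (ZMod (p ^ 2))ˣ) : ZMod (p ^ 2)) =
          (c : ZMod (p ^ 2)) * n - (c : ZMod (p ^ 2)) ^ 2 * k * ((e⁻¹ : (ZMod (p ^ 2))ˣ) : ZMod (p ^ 2)) :=
        congrArg Prod.fst h0
      rw [ha2, hb'] at h1
      have h3 : (a : ZMod (p ^ 2)) * n = (c : ZMod (p ^ 2)) * n := by linear_combination h1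
      have h4 : a = c := Units.ext (hN.mul_right_cancel h3)
      rw [h4, hb']
    · rintro ⟨⟨m, g, R⟩, hz, hl, hs⟩
      rw [hnf] at hs
      simp only at hz hl hs
      have hzu : IsUnit (zz p k m R) := (hunit _).2 hz
      have hlu : IsUnit (ll p n k m g R) := (hunit _).2 hl
      obtain ⟨N, rfl⟩ := hN
      obtain ⟨z, hz'⟩ := hzu
      obtain ⟨l, hl'⟩ := hlu
      obtain ⟨t, ht⟩ := h2
      set n' : ZMod (p ^ 2) := ((N⁻¹ : (ZMod (p ^ 2))ˣ) : ZMod (p ^ 2)) with hn'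
      have hnn : (N : ZMod (p ^ 2)) * n' = 1 := Units.mul_inv N
      set z' : ZMod (p ^ 2) := ((z⁻¹ : (ZMod (p ^ 2))ˣ) : ZMod (p ^ 2)) with hz''
      have hzz : (z : ZMod (p ^ 2)) * z' = 1 := Units.mul_inv z
      set t' : ZMod (p ^ 2) := ((t⁻¹ : (ZMod (p ^ 2))ˣ) : ZMod (p ^ 2)) with ht'
      have htt : (2 : ZMod (p ^ 2)) * t' = 1 := by rw [← ht]; exact Units.mul_inv t
      rw [← hz', ← hl'] at hs
      -- Z and b
      set Z : ZMod (p ^ 2) := (z : ZMod (p ^ 2)) * n' ^ 2 with hZ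
      set b : ZMod (p ^ 2) := ss p N k m g R * (t' * n' ^ 2 * z') with hb
      have hZu : IsUnit Z := by
        rw [hZ]
        exact z.isUnit.mul ((N⁻¹).isUnit.pow 2)
      -- n⁴ b² = l
      have e1 : (N : ZMod (p ^ 2)) ^ 4 * b ^ 2 = l := by
        have h5 : (N : ZMod (p ^ 2)) ^ 4 * b ^ 2 =
            ((N : ZMod (p ^ 2)) * n') ^ 4 * (z' ^ 2 * t' ^ 2) * (ss p N k m g R) ^ 2 := by
          rw [hb]
          ring
        rw [h5, hs, hnn]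
        have h6 : (1 : ZMod (p ^ 2)) ^ 4 * (z' ^ 2 * t' ^ 2) * (4 * (z : ZMod (p ^ 2)) ^ 2 * l) =
            ((z : ZMod (p ^ 2)) * z') ^ 2 * (2 * t') ^ 2 * l := by ring
        rw [h6, hzz, htt]
        ring
      have hbu : IsUnit b := by
        have h5 : IsUnit ((N : ZMod (p ^ 2)) ^ 4 * b ^ 2) := by rw [e1]; exact l.isUnit
        have h6 : IsUnit (b ^ 2) := isUnit_of_mul_isUnit_right h5
        exact (isUnit_pow_iff (by norm_num)).1 h6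
      have e2 : (N : ZMod (p ^ 2)) ^ 2 * Z = z := by
        rw [hZ]
        have : (N : ZMod (p ^ 2)) ^ 2 * (z * n' ^ 2) = ((N : ZMod (p ^ 2)) * n') ^ 2 * z := by ring
        rw [this, hnn]
        ring
      have r1 : (N : ZMod (p ^ 2)) ^ 2 * Z = m ^ 2 + k * R := by
        rw [e2, hz']
        rfl
      have hll : (l : ZMod (p ^ 2)) = (N : ZMod (p ^ 2)) ^ 2 * m * g + z * k ^ 2 := by
        rw [hl', hz']
        rfl
      have hss : ss p N k m g R = (N : ZMod (p ^ 2)) ^ 2 * g * R - m * k * z := by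
        rw [hz']
        rfl
      have hN2 : IsUnit ((N : ZMod (p ^ 2)) ^ 2) := N.isUnit.pow 2
      have r2 : (N : ZMod (p ^ 2)) ^ 2 * b ^ 2 = m * g + Z * k ^ 2 := by
        apply hN2.mul_left_cancel
        have : (N : ZMod (p ^ 2)) ^ 2 * ((N : ZMod (p ^ 2)) ^ 2 * b ^ 2) = l := by
          rw [← e1]
          ring
        rw [this, hll, ← e2]
        ring
      have r3 : 2 * (N : ZMod (p ^ 2)) ^ 2 * Z * b = g * R - m * k * Z := by
        apply hN2.mul_left_cancel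
        have h5 : (N : ZMod (p ^ 2)) ^ 2 * (2 * (N : ZMod (p ^ 2)) ^ 2 * Z * b) =
            (2 * t') * ((N : ZMod (p ^ 2)) * n') ^ 2 * (((N : ZMod (p ^ 2)) ^ 2 * Z) * z') *
              ss p N k m g R := by
          rw [hb]
          ring
        rw [h5, e2, hzz, htt, hnn, hss, ← e2]
        ring
      obtain ⟨q1, q2, q3⟩ := hPKR (ZMod (p ^ 2)) N k m g R Z b N.isUnit hZu hbu r1 r2 r3
      obtain ⟨b₀, hb₀⟩ := hbu
      set b' : ZMod (p ^ 2) := ((b₀⁻¹ : (ZMod (p ^ 2))ˣ) : ZMod (p ^ 2)) with hb''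
      have hbb : b * b' = 1 := by rw [← hb₀]; exact Units.mul_inv b₀
      set a : ZMod (p ^ 2) := n' * (m + Z * k * b') with ha
      have q4 : (N : ZMod (p ^ 2)) * b * a = m * b + Z * k := by
        rw [ha]
        have : (N : ZMod (p ^ 2)) * b * (n' * (m + Z * k * b')) =
            ((N : ZMod (p ^ 2)) * n') * (m * b + Z * k * (b * b')) := by ring
        rw [this, hnn, hbb]
        ring
      have haZ : a ^ 2 = Z := q3 a q4
      have hau : IsUnit a := (isUnit_pow_iff (by norm_num)).1 (haZ ▸ hZu)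
      obtain ⟨a₀, ha₀⟩ := hau
      set a' : ZMod (p ^ 2) := ((a₀⁻¹ : (ZMod (p ^ 2))ˣ) : ZMod (p ^ 2)) with ha''
      have haa : a * a' = 1 := by rw [← ha₀]; exact Units.mul_inv a₀
      have hNa : (N : ZMod (p ^ 2)) * a = m + Z * k * b' := by
        rw [ha, ← mul_assoc, hnn, one_mul]
      refine ⟨(a₀, b₀), Subtype.ext ?_⟩
      show PK_f (N : ZMod (p ^ 2)) k (a₀, b₀) = (m, g, R)
      unfold PK_f
      simp only [ha₀, hb₀]
      rw [← ha'', ← hb'']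
      refine Prod.ext ?_ (Prod.ext ?_ ?_)
      · show a * N - a ^ 2 * k * b' = m
        rw [haZ]
        linear_combination hNa
      · show b * k + b ^ 2 * N * a' = g
        apply hZu.mul_left_cancel
        rw [q1]
        -- Z (b k + b² N a') = Z b k + b² N a
        have h5 : Z * (b * k + b ^ 2 * N * a') = Z * b * k + b ^ 2 * (N * a) := by
          rw [← haZ]
          linear_combination (b ^ 2 * N * a) * haa
        rw [h5, hNa]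
        linear_combination (b * Z * k) * hbb
      · show 2 * a ^ 3 * N * b' - a ^ 4 * k * b' ^ 2 = R
        have hb2 : IsUnit (b ^ 2) := by
          rw [← hb₀]
          exact b₀.isUnit.pow 2
        apply hb2.mul_right_cancel
        rw [q2]
        have h5 : (2 * a ^ 3 * N * b' - a ^ 4 * k * b' ^ 2) * b ^ 2 =
            2 * Z * (N * b * a) - Z ^ 2 * k := by
          rw [← haZ]
          linear_combination (2 * a ^ 3 * N * b - a ^ 4 * k * (b * b' + 1)) * hbb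
        rw [h5, q4]
        ring
  have hcard : Nat.card S = Nat.card ((ZMod (p ^ 2))ˣ × (ZMod (p ^ 2))ˣ) :=
    (Nat.card_congr (Equiv.ofBijective F hbij)).symm
  rw [hcard, Nat.card_prod]
  have : NeZero (p ^ 2) := ⟨pow_ne_zero _ hp.ne_zero⟩
  have hu : Nat.card (ZMod (p ^ 2))ˣ = p ^ 2 - p := by
    rw [Nat.card_eq_fintype_card, ZMod.card_units_eq_totient, Nat.totient_prime_pow hp (by norm_num)]
    rw [show 2 - 1 = 1 by rfl, pow_one, Nat.mul_sub, mul_one, sq]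
  rw [hu]
  ring

end Pool.Agent.T5P
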